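import Pool.Agent.Q120.HL.H7

/-!
# The critical sieving level for uniform Hardy–Littlewood asymptotics

`z : ℕ → ℕ` gives the level: on the block `2 ^ k ≤ n < 2 ^ (k + 1)` the random set contains each `n` without prime
factors `p < z k` independently with probability `1 / (V log n)` (at most `1`), `V = ∏_{p < z k} (1 - 1/p)`, and no other `n`.
`log k` is `log log x` up to a constant, for `x` in the block.
-/

set_option autoImplicit false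

namespace Pool.Agent.Results.MP_1039f5_nt.CriticalSievingLevel

open Finset MeasureTheory Filter Pool.Agent.Q120.MG Pool.Agent.Q120.GM Pool.Agent.Q120.CL Pool.Agent.Q120.HL
open scoped Topology

variable {Ω : Type*} [MeasurableSpace Ω] {μ : Measure Ω} [IsProbabilityMeasure μ] {A : Ω → Set ℕ} {z : ℕ → ℕ}

open Classical in
/-- The question for the set `S` in place of the primes. -/
def Q1 (S : Set ℕ) : Prop :=
  ∀ ε : ℝ, 0 < ε → ∃ X : ℝ, ∀ x : ℝ, X ≤ x →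
    ∀ d d' : ℕ, Even d → Even d' → 2 ≤ d' → d' < d → (d : ℝ) ≤ Real.log x ^ 2 →
    ∀ T : ℝ,
      T = (∏' p : Nat.Primes,
            (1 - ((({0, d', d} : Finset ℕ).image (fun n => n % (p : ℕ))).card : ℝ) / ((p : ℕ) : ℝ)) / (1 - 1 / ((p : ℕ) : ℝ)) ^ 3) →
      T ≠ 0 →
      |(((Finset.range (⌊x⌋₊ + 1)).filter (fun n => d ≤ n ∧ n ∈ S ∧ n - d ∈ S ∧ n - d' ∈ S)).card : ℝ) - T * x / Real.log x ^ 3|
        ≤ ε * (T * x / Real.log x ^ 3)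

theorem card_three {d d' : ℕ} (h1 : 2 ≤ d') (h2 : d' < d) : ({0, d', d} : Finset ℕ).card = 3 := by
  rw [card_insert_of_notMem, card_insert_of_notMem, card_singleton]
  · rw [mem_singleton]
    omega
  · rw [mem_insert, mem_singleton]
    omega

theorem SS_three {d d' : ℕ} (h1 : 2 ≤ d') (h2 : d' < d) : SS {0, d', d} =
    ∏' p : Nat.Primes, (1 - ((({0, d', d} : Finset ℕ).image (fun n => n % (p : ℕ))).card : ℝ) / ((p : ℕ) : ℝ)) /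
      (1 - 1 / ((p : ℕ) : ℝ)) ^ 3 := by
  unfold SS loc nu
  rw [card_three h1 h2]

open Classical in
theorem tup_three (S : Set ℕ) {d d' : ℕ} (h2 : d' < d) (x : ℕ) : tup S {0, d', d} x =
    ((Finset.range (x + 1)).filter (fun n => d ≤ n ∧ n ∈ S ∧ n - d ∈ S ∧ n - d' ∈ S)).card := by
  unfold tup
  congr 1
  refine filter_congr (fun n _ => ?_)
  constructor
  · intro h
    have e0 := h 0 (by simp)
    have e1 := h d' (by simp)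
    have e2 := h d (by simp)
    rw [Nat.sub_zero] at e0
    exact ⟨e2.1, e0.2, e2.2, e1.2⟩
  · rintro ⟨e1, e2, e3, e4⟩ m hm
    rw [mem_insert, mem_insert, mem_singleton] at hm
    rcases hm with rfl | rfl | rfl
    · exact ⟨Nat.zero_le _, by rwa [Nat.sub_zero]⟩
    · exact ⟨by omega, e4⟩
    · exact ⟨e1, e3⟩

theorem Law_mono {S : Set ℕ} {r B : ℕ} {lo hi lo' hi' : ℝ} (h : Law S r B lo hi) (h1 : lo' ≤ lo) (h2 : hi ≤ hi') : Law S r B lo' hi' := by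
  obtain ⟨X, hX⟩ := h
  refine ⟨max X 1, fun x hx D hD hDr hS => ?_⟩
  obtain ⟨e1, e2⟩ := hX x ((le_max_left _ _).trans hx) D hD hDr hS
  have hx1 : 1 ≤ x := (le_max_right _ _).trans hx
  have hR : 0 ≤ SS D * (x / Real.log x ^ r) :=
    mul_nonneg (SS_nonneg D) (div_nonneg (by linarith) (pow_nonneg (Real.log_nonneg hx1) r))
  exact ⟨le_trans (mul_le_mul_of_nonneg_right h1 hR) e1, e2.trans (mul_le_mul_of_nonneg_right h2 hR)⟩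

/-- All uniform laws at once. -/
theorem law_all (hA : IsModel μ (pr z) A) (hz : ∀ᶠ k : ℕ in atTop, 8 * z k ≤ k) {θ : ℝ} (hθ : 0 < θ) (hθ1 : θ ≤ 1)
    (hlow : ∀ δ : ℝ, 0 < δ → ∀ᶠ k : ℕ in atTop, Real.log k ^ (θ - δ) ≤ z k) :
    ∀ᵐ ω ∂μ, ∀ r B : ℕ, ∀ ε : ℝ, 0 < ε → Law (A ω) (r + 1) B (θ ^ r - ε) (1 + ε) := by
  have h1 : ∀ᵐ ω ∂μ, ∀ r B j : ℕ, Law (A ω) (r + 1) B (θ ^ r - 1 / ((j : ℝ) + 1)) (1 + 1 / ((j : ℝ) + 1)) := by
    rw [ae_all_iff]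
    intro r
    rw [ae_all_iff]
    intro B
    rw [ae_all_iff]
    intro j
    exact law_ae hA hz r B hθ hθ1 hlow (by positivity)
  filter_upwards [h1] with ω hω r B ε hε
  obtain ⟨j, hj⟩ := exists_nat_gt (1 / ε)
  have h2 : 1 / ((j : ℝ) + 1) ≤ ε := by
    rw [div_le_iff₀ (by positivity)]
    rw [div_lt_iff₀ hε] at hj
    nlinarith
  exact Law_mono (hω r B j) (by linarith) (by linarith)

theorem Q1_of_law {S : Set ℕ} (h : ∀ ε : ℝ, 0 < ε → Law S 3 2 (1 - ε) (1 + ε)) : Q1 S := by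
  intro ε hε
  obtain ⟨X, hX⟩ := h ε hε
  refine ⟨X, fun x hx d d' _ _ h2 hdd hd T hT hT0 => ?_⟩
  rw [← SS_three h2 hdd] at hT
  have h3 := hX x hx {0, d', d} (by
    intro m hm
    rw [mem_insert, mem_insert, mem_singleton] at hm
    have h4 : m ≤ d := by omega
    have h5 : (m : ℝ) ≤ d := by exact_mod_cast h4
    linarith) (card_three h2 hdd) (by rw [← hT]; exact hT0)
  rw [tup_three S hdd, ← hT] at h3
  rw [abs_le, mul_div_assoc]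
  constructor
  · linarith [h3.1]
  · linarith [h3.2]

theorem Dy_two (y : ℕ) : Dy 2 y = {0, PQ y, 2 * PQ y} := by
  unfold Dy
  ext m
  simp only [mem_image, mem_range, mem_insert, mem_singleton]
  constructor
  · rintro ⟨i, hi, rfl⟩
    interval_cases i
    · left; simp
    · right; left; simp
    · right; right; rfl
  · rintro (rfl | rfl | rfl)
    · exact ⟨0, by norm_num, by simp⟩
    · exact ⟨1, by norm_num, by simp⟩
    · exact ⟨2, by norm_num, rfl⟩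

theorem ev_pow : ∀ (X : ℝ), ∀ᶠ k : ℕ in atTop, X ≤ 2 ^ k - 1 := by
  intro X
  have h1 : Tendsto (fun k : ℕ => (2 : ℝ) ^ k) atTop atTop := tendsto_pow_atTop_atTop_of_one_lt (by norm_num)
  filter_upwards [h1.eventually_ge_atTop (X + 1)] with k hk
  linarith

theorem pow_mono' {k : ℕ} : (2 : ℝ) ^ k - 1 ≤ 2 ^ (k + 1) - 1 := by
  have := pow_le_pow_right₀ (show (1 : ℝ) ≤ 2 by norm_num) (Nat.le_add_right k 1)
  linarith

/-- The sets `Dy` satisfy the conditions on the size. -/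
theorem Dy_ok (r : ℕ) : ∀ᶠ k : ℕ in atTop, ∀ x : ℝ, 2 ^ k - 1 ≤ x → ∀ d ∈ Dy r ⌊Real.log (k : ℝ)⌋₊, (d : ℝ) ≤ Real.log x ^ 2 := by
  filter_upwards [Dy_small r, eventually_ge_atTop 2] with k h1 h2 x hx d hd
  have hk2 : (2 : ℝ) ≤ k := by exact_mod_cast h2
  have h4 : (4 : ℝ) ≤ 2 ^ k := by
    calc (4 : ℝ) = 2 ^ 2 := by norm_num
      _ ≤ 2 ^ k := pow_le_pow_right₀ (by norm_num) h2
  have h5 := log_pow_ge h2
  have h6 : Real.log (2 ^ k - 1) ≤ Real.log x := Real.log_le_log (by linarith) hx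
  refine (h1 d hd).trans (pow_le_pow_left₀ ?_ (h5.trans h6) 2)
  have : 0 ≤ (k : ℝ) - 1 := by linarith
  positivity

theorem SS_ev (r : ℕ) : ∀ᶠ k : ℕ in atTop, 0 < SS (Dy r ⌊Real.log (k : ℝ)⌋₊) := by
  filter_upwards [y_top.eventually_ge_atTop (2 * (r + 1)), (y_err r).eventually (gt_mem_nhds one_pos)] with k h1 h2
  exact SS_Dy_pos h1 h2

theorem Fits_of_Q1 {S : Set ℕ} (h : Q1 S) {ε : ℝ} (hε : 0 < ε) : ∀ᶠ k : ℕ in atTop,
    Fits S (Dy 2 ⌊Real.log (k : ℝ)⌋₊) ε (2 ^ k - 1) ∧ Fits S (Dy 2 ⌊Real.log (k : ℝ)⌋₊) ε (2 ^ (k + 1) - 1) := by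
  obtain ⟨X, hX⟩ := h ε hε
  filter_upwards [ev_pow X, Dy_ok 2, SS_ev 2, y_top.eventually_ge_atTop 3] with k h1 h2 h3 h4
  obtain ⟨y, hy⟩ : ∃ y, y = ⌊Real.log (k : ℝ)⌋₊ := ⟨_, rfl⟩
  rw [← hy] at h2 h3 h4 ⊢
  have hP : 2 ∣ PQ y := dvd_prod_of_mem _ (mem_filter.2 ⟨mem_range.2 (by omega), Nat.prime_two⟩)
  have hP0 := PQ_pos y
  have hP2 : 2 ≤ PQ y := Nat.le_of_dvd hP0 hP
  have key : ∀ x : ℝ, X ≤ x → 2 ^ k - 1 ≤ x → Fits S (Dy 2 y) ε x := by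
    intro x hx1 hx2
    have h5 := hX x hx1 (2 * PQ y) (PQ y) (even_two_mul _) (even_iff_two_dvd.2 hP) hP2 (by omega)
      (h2 x hx2 (2 * PQ y) (by rw [Dy_two]; simp)) (SS (Dy 2 y)) (by rw [← SS_three hP2 (by omega), Dy_two]) h3.ne'
    rw [← tup_three S (by omega), ← Dy_two, abs_le, mul_div_assoc] at h5
    unfold Fits
    rw [Dy_card]
    constructor
    · linarith [h5.1]
    · linarith [h5.2]
  exact ⟨key _ h1 le_rfl, key _ (h1.trans pow_mono') pow_mono'⟩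

theorem Fits_of_Law {S : Set ℕ} {r B : ℕ} (hB : 2 ≤ B) {ε : ℝ} (h : Law S (r + 1) B (1 - ε) (1 + ε)) : ∀ᶠ k : ℕ in atTop,
    Fits S (Dy r ⌊Real.log (k : ℝ)⌋₊) ε (2 ^ k - 1) ∧ Fits S (Dy r ⌊Real.log (k : ℝ)⌋₊) ε (2 ^ (k + 1) - 1) := by
  obtain ⟨X, hX⟩ := h
  filter_upwards [ev_pow X, ev_pow 3, Dy_ok r, SS_ev r] with k h1 h1' h2 h3
  obtain ⟨y, hy⟩ : ∃ y, y = ⌊Real.log (k : ℝ)⌋₊ := ⟨_, rfl⟩
  rw [← hy] at h2 h3 ⊢
  have key : ∀ x : ℝ, X ≤ x → 2 ^ k - 1 ≤ x → Fits S (Dy r y) ε x := by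
    intro x hx1 hx2
    have hl : 1 ≤ Real.log x := by
      rw [← Real.log_exp 1]
      refine Real.log_le_log (Real.exp_pos 1) ?_
      have := Real.exp_one_lt_d9
      linarith
    have h5 := hX x hx1 (Dy r y) (fun d hd => (h2 x hx2 d hd).trans (pow_le_pow_right₀ hl hB)) (Dy_card r y) h3.ne'
    unfold Fits
    rw [Dy_card]
    exact h5
  exact ⟨key _ h1 le_rfl, key _ (h1.trans pow_mono') pow_mono'⟩

/-- Failure below the critical level. -/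
theorem failure (hA : IsModel μ (pr z) A) (hz : ∀ᶠ k : ℕ in atTop, 8 * z k ≤ k)
    (h : ¬ ∀ δ : ℝ, 0 < δ → ∀ᶠ k : ℕ in atTop, Real.log k ^ (1 - δ) ≤ z k) :
    (∀ᵐ ω ∂μ, ¬ Q1 (A ω)) ∧ ∀ r B : ℕ, 1 ≤ r → 2 ≤ B → ∃ ε : ℝ, 0 < ε ∧ ∀ᵐ ω ∂μ, ¬ Law (A ω) (r + 1) B (1 - ε) (1 + ε) := by
  push Not at h
  obtain ⟨δ, hδ, hf⟩ := h
  obtain ⟨δ', hδ'⟩ : ∃ δ' : ℝ, δ' = min δ (1 / 2) := ⟨_, rfl⟩
  have hδ'0 : 0 < δ' := by rw [hδ']; exact lt_min hδ (by norm_num)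
  have hδ'1 : δ' < 1 := by rw [hδ']; exact lt_of_le_of_lt (min_le_right _ _) (by norm_num)
  have hδ'2 : δ' ≤ δ := by rw [hδ']; exact min_le_left _ _
  have hf' : ∃ᶠ k : ℕ in atTop, (z k : ℝ) < Real.log k ^ (1 - δ') := by
    refine (hf.and_eventually (log_tend.eventually_ge_atTop 1)).mono ?_
    rintro k ⟨h1, h2⟩
    exact h1.trans_le (Real.rpow_le_rpow_of_exponent_le h2 (by linarith))
  constructor
  · obtain ⟨ε, hε, h1⟩ := fail_ae hA hz (r := 2) (by norm_num) hδ'0 hδ'1 hf'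
    filter_upwards [h1] with ω hω hQ
    obtain ⟨k, hk1, hk2⟩ := (hω.and_eventually (Fits_of_Q1 hQ hε)).exists
    exact hk1 hk2
  · intro r B hr hB
    obtain ⟨ε, hε, h1⟩ := fail_ae hA hz hr hδ'0 hδ'1 hf'
    refine ⟨ε, hε, ?_⟩
    filter_upwards [h1] with ω hω hL
    obtain ⟨k, hk1, hk2⟩ := (hω.and_eventually (Fits_of_Law hB hL)).exists
    exact hk1 hk2

/-- The exact constant for nondecreasing levels. -/
theorem exact_all (hA : IsModel μ (pr z) A) (hz : ∀ᶠ k : ℕ in atTop, 8 * z k ≤ k) (hmono : Monotone z) {θ : ℝ} (hθ : 0 ≤ θ)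
    (hθ1 : θ < 1) (hfreq : ∀ η : ℝ, 0 < η → ∃ᶠ k : ℕ in atTop, (z k : ℝ) ≤ Real.log k ^ (θ + η)) :
    ∀ᵐ ω ∂μ, ∀ r B : ℕ, 2 ≤ B → ∀ ε C : ℝ, 0 < ε → ¬ Law (A ω) (r + 1) B (θ ^ r + ε) C := by
  have h1 : ∀ᵐ ω ∂μ, ∀ r j : ℕ, ∃ᶠ k : ℕ in atTop, (tup (A ω) (Dy r ⌊Real.log (k : ℝ)⌋₊) ⌊(2 : ℝ) ^ k⌋₊ : ℝ) ≤
      (θ ^ r + 1 / ((j : ℝ) + 1)) * (SS (Dy r ⌊Real.log (k : ℝ)⌋₊) * (2 ^ k / Real.log (2 ^ k) ^ (r + 1))) := by
    rw [ae_all_iff]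
    intro r
    rw [ae_all_iff]
    intro j
    exact exact_ae hA hz hmono r hθ hθ1 hfreq (by positivity)
  filter_upwards [h1] with ω hω r B hB ε C hε hL
  obtain ⟨j, hj⟩ := exists_nat_gt (1 / ε)
  have h2 : 1 / ((j : ℝ) + 1) < ε := by
    rw [div_lt_iff₀ (by positivity)]
    rw [div_lt_iff₀ hε] at hj
    nlinarith
  obtain ⟨X, hX⟩ := hL
  obtain ⟨k, hk, hk1, hk2, hk3, hk4⟩ := ((hω r j).and_eventually
    ((ev_pow X).and ((Dy_ok r).and ((SS_ev r).and (ev_pow 3))))).exists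
  obtain ⟨y, hy⟩ : ∃ y, y = ⌊Real.log (k : ℝ)⌋₊ := ⟨_, rfl⟩
  rw [← hy] at hk hk2 hk3
  have hl : 1 ≤ Real.log ((2 : ℝ) ^ k) := by
    rw [← Real.log_exp 1]
    refine Real.log_le_log (Real.exp_pos 1) ?_
    have := Real.exp_one_lt_d9
    linarith
  have h3 := (hX (2 ^ k) (by linarith) (Dy r y)
    (fun d hd => (hk2 (2 ^ k) (by linarith) d hd).trans (pow_le_pow_right₀ hl hB)) (Dy_card r y) hk3.ne').1
  have h4 : 0 < SS (Dy r y) * (2 ^ k / Real.log (2 ^ k) ^ (r + 1)) := by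
    have : 0 < Real.log ((2 : ℝ) ^ k) := by linarith
    positivity
  nlinarith

/-- **The critical sieving level for the question**, all tuples, and the exact constant below that level. -/
theorem result (z : ℕ → ℕ) (hz : ∀ᶠ k : ℕ in atTop, 8 * z k ≤ k) :
    (∃ (Ω : Type) (_ : MeasurableSpace Ω) (μ : Measure Ω) (A : Ω → Set ℕ), IsProbabilityMeasure μ ∧ IsModel μ (pr z) A) ∧
    ∀ (Ω : Type) (_ : MeasurableSpace Ω) (μ : Measure Ω) (_ : IsProbabilityMeasure μ) (A : Ω → Set ℕ), IsModel μ (pr z) A →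
      ((∀ δ : ℝ, 0 < δ → ∀ᶠ k : ℕ in atTop, Real.log k ^ (1 - δ) ≤ z k) →
        (∀ᵐ ω ∂μ, Q1 (A ω)) ∧ ∀ᵐ ω ∂μ, ∀ r B : ℕ, 1 ≤ r → ∀ ε : ℝ, 0 < ε → Law (A ω) r B (1 - ε) (1 + ε)) ∧
      ((¬ ∀ δ : ℝ, 0 < δ → ∀ᶠ k : ℕ in atTop, Real.log k ^ (1 - δ) ≤ z k) →
        (∀ᵐ ω ∂μ, ¬ Q1 (A ω)) ∧ ∀ r B : ℕ, 2 ≤ r → 2 ≤ B → ∃ ε : ℝ, 0 < ε ∧ ∀ᵐ ω ∂μ, ¬ Law (A ω) r B (1 - ε) (1 + ε)) ∧
      (∀ θ : ℝ, 0 < θ → θ ≤ 1 → (∀ δ : ℝ, 0 < δ → ∀ᶠ k : ℕ in atTop, Real.log k ^ (θ - δ) ≤ z k) →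
        ∀ᵐ ω ∂μ, ∀ r B : ℕ, ∀ ε : ℝ, 0 < ε → Law (A ω) (r + 1) B (θ ^ r - ε) (1 + ε)) ∧
      (∀ θ : ℝ, 0 ≤ θ → θ < 1 → (∀ η : ℝ, 0 < η → ∃ᶠ k : ℕ in atTop, (z k : ℝ) ≤ Real.log k ^ (θ + η)) → Monotone z →
        ∀ᵐ ω ∂μ, ∀ r B : ℕ, 2 ≤ B → ∀ ε C : ℝ, 0 < ε → ¬ Law (A ω) (r + 1) B (θ ^ r + ε) C) := by
  refine ⟨⟨_, inferInstance, prodMeasure (pr z), trueSet, inferInstance, isModel (pr z) (pr_nonneg z) (pr_le_one z)⟩,
    fun Ω _ μ _ A hA => ⟨fun h => ?_, fun h => ?_, fun θ hθ hθ1 hlow => law_all hA hz hθ hθ1 hlow,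
      fun θ hθ hθ1 hfreq hmono => exact_all hA hz hmono hθ hθ1 hfreq⟩⟩
  · have h1 := law_all hA hz one_pos le_rfl h
    simp only [one_pow] at h1
    refine ⟨?_, ?_⟩
    · filter_upwards [h1] with ω hω
      exact Q1_of_law (fun ε hε => hω 2 2 ε hε)
    · filter_upwards [h1] with ω hω r B hr ε hε
      obtain ⟨s, rfl⟩ : ∃ s, r = s + 1 := ⟨r - 1, by omega⟩
      exact hω s B ε hε
  · obtain ⟨h1, h2⟩ := failure hA hz h
    refine ⟨h1, fun r B hr hB => ?_⟩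
    obtain ⟨s, rfl⟩ : ∃ s, r = s + 1 := ⟨r - 1, by omega⟩
    exact h2 s B (by omega) hB

end Pool.Agent.Results.MP_1039f5_nt.CriticalSievingLevel
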