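import Pool.Agent.Q253.Thin.ListU
import Pool.Agent.Q253.Thin.AP
import Pool.Agent.Q253.Cov.Pig

/-!
# Triples `p, p - d, p - d'` for all `d, d' ≤ log ^ E x` at once, with one extremely thin set of factors, and progressions of them

Chen's theorem with a sieve condition on `p - d'`, uniformly for all admissible triples `{0, d, d'}` in the range of the problem: up to
one prime factor `q` of `p - d` which comes from ONE set `Q` with `O((log log x) ^ 2)` elements up to `x` (for all triples together), `p - d`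
is prime with the expected frequency; and the solutions contain narrow arithmetic progressions of one colour on which `p - d'` has a
constant number of prime factors.

Libraries (starting files): `Y840.CT.GenF` (Chen's theorem for systems of classes in windows), `Y843.HS` (Szemerédi's theorem relative to
sifted sets), `Y151.HS.FLC` (fundamental lemma).
-/

set_option autoImplicit false

namespace Pool.Agent.Results.MP_1039f5_nt.OneThinSetAllTriples

open Finset Filter
open Pool.Agent.Y840.CT Pool.Agent.Q253.Thin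
open Pool.Agent.Q253.Cov (pigeon)

/-- `0, d, d'` do not occupy all classes modulo any prime, that is, the singular series does not vanish. -/
def Admissible (d d' : ℕ) : Prop := ∀ q : ℕ, q.Prime → ∃ n : ℤ, ¬ (q : ℤ) ∣ n ∧ ¬ (q : ℤ) ∣ n - d ∧ ¬ (q : ℤ) ∣ n - d'

/-- the product of the `1 - ν(q) / q` over the primes `q ≤ X`, where `ν(q)` is the number of the classes of `0, d, d'` modulo `q` -/
noncomputable def V (d d' X : ℕ) : ℝ := ∏ q ∈ (Icc 1 X).filter Nat.Prime,
  (1 - ((({0, (d : ℤ), (d' : ℤ)} : Finset ℤ).image (fun h => h % (q : ℤ))).card : ℝ) / q)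

open Classical in
/-- the primes `A < p ≤ B` such that `p - d` is prime and `p - d' ≥ 1` has no prime factor `≤ z` -/
noncomputable def One (z : ℝ) (d d' A B : ℕ) : Finset ℕ :=
  (Ioc A B).filter (fun p => p.Prime ∧ (p - d).Prime ∧ d' < p ∧ ∀ q : ℕ, q.Prime → q ∣ p - d' → z < q)

open Classical in
/-- the primes `A < p ≤ B` such that `p - d` is `q` times a prime `≥ q` and `p - d' ≥ 1` has no prime factor `≤ z` -/
noncomputable def Two (q : ℕ) (z : ℝ) (d d' A B : ℕ) : Finset ℕ :=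
  (Ioc A B).filter (fun p => p.Prime ∧ (∃ p' : ℕ, p'.Prime ∧ q ≤ p' ∧ p = d + q * p') ∧ d' < p ∧
    ∀ q : ℕ, q.Prime → q ∣ p - d' → z < q)

/-- the system of classes -/
def Fd (d d' : ℕ) : ℕ → Finset ℤ := fun _ => {(d : ℤ), (d' : ℤ)}

lemma rho_lt {d d' : ℕ} (ha : Admissible d d') {q : ℕ} (hq : q.Prime) : rho {(d : ℤ), (d' : ℤ)} q < q := by
  classical
  obtain ⟨n, hn0, hn1, hn2⟩ := ha q hq
  have hq0 : (0 : ℤ) < q := by exact_mod_cast hq.pos
  unfold rho
  have hsub : (insert 0 ({(d : ℤ), (d' : ℤ)} : Finset ℤ)).image (fun h : ℤ => h % q) ⊆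
      ((range q).image (fun c : ℕ => (c : ℤ))).erase (n % q) := by
    intro z hz
    rw [mem_image] at hz
    obtain ⟨h, hh, rfl⟩ := hz
    rw [mem_erase]
    constructor
    · intro he
      have h1 : (q : ℤ) ∣ n - h := Int.ModEq.dvd he
      rw [mem_insert, mem_insert, mem_singleton] at hh
      rcases hh with h2 | h2 | h2
      · apply hn0
        rw [h2, sub_zero] at h1
        exact h1
      · rw [h2] at h1
        exact hn1 h1
      · rw [h2] at h1
        exact hn2 h1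
    · rw [mem_image]
      refine ⟨(h % q).toNat, ?_, ?_⟩
      · rw [mem_range]
        have h1 := Int.emod_lt_of_pos h hq0
        have h2 := Int.emod_nonneg h hq0.ne'
        omega
      · exact Int.toNat_of_nonneg (Int.emod_nonneg h hq0.ne')
  have hmem : n % q ∈ (range q).image (fun c : ℕ => (c : ℤ)) := by
    rw [mem_image]
    refine ⟨(n % q).toNat, ?_, ?_⟩
    · rw [mem_range]
      have h1 := Int.emod_lt_of_pos n hq0
      have h2 := Int.emod_nonneg n hq0.ne'
      omega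
    · exact Int.toNat_of_nonneg (Int.emod_nonneg n hq0.ne')
  refine lt_of_le_of_lt (card_le_card hsub) ?_
  rw [card_erase_of_mem hmem, card_image_of_injective _ Nat.cast_injective, card_range]
  have := hq.pos
  omega

lemma sys0 {d d' : ℕ} (ha : Admissible d d') (hd1 : 1 ≤ d) : Sys0 2 (Fd d d') d where
  card q _ := by
    unfold Fd
    exact card_le_two
  ne := by exact_mod_cast (by omega : d ≠ 0)
  mem q _ := by
    unfold Fd
    simp
  loc q hq := rho_lt ha hq

lemma V_eq (d d' X : ℕ) : VF (Fd d d') X = V d d' X := by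
  unfold VF V Fd rho
  rfl

/-- the conditions in terms of natural numbers -/
lemma good {t X A B d d' : ℕ} (hd : ∀ p : ℕ, (X : ℝ) ^ (1 / (t : ℝ)) < (p : ℝ) → d < p ∧ d' < p) {p : ℕ}
    (hp : p ∈ GoodF t X A B (Fd d d') d) : p ∈ Ioc A B ∧ p.Prime ∧ d < p ∧ d' < p ∧ ((d : ℤ) - p).natAbs = p - d ∧
      (∀ q : ℕ, q.Prime → q ∣ p - d' → (X : ℝ) ^ (1 / (t : ℝ)) < q) ∧
      ∀ q : ℕ, q.Prime → q ∣ p - d → (X : ℝ) ^ (1 / 9 : ℝ) < q := by
  classical
  unfold GoodF at hp
  rw [mem_filter] at hp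
  obtain ⟨p0, pp, pt, ⟨pr1, pr2, pr3⟩, pF⟩ := hp
  obtain ⟨h1, h2⟩ := hd p pt
  have h3 : ((d : ℤ) - p).natAbs = p - d := by omega
  refine ⟨p0, pp, h1, h2, h3, ?_, ?_⟩
  · intro q hq hqd
    by_contra hcon
    push Not at hcon
    apply pF q hq hcon (d' : ℤ) (by unfold Fd; simp)
    rw [Int.natCast_dvd]
    have h4 : ((d' : ℤ) - p).natAbs = p - d' := by omega
    rw [h4]
    exact hqd
  · intro q hq hqd
    apply pr3 q hq
    rw [Int.natCast_dvd, h3]
    exact hqd

lemma few {X t n : ℕ} (ht : 1 ≤ t) (hX : 1 ≤ X) (hn : 1 ≤ n) (hnX : n ≤ X)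
    (h : ∀ q : ℕ, q.Prime → q ∣ n → (X : ℝ) ^ (1 / (t : ℝ)) < q) : n.primeFactorsList.length ≤ t := by
  by_contra hcon
  push Not at hcon
  have hX0 : (0 : ℝ) < X := by exact_mod_cast hX
  have hX1 : (1 : ℝ) ≤ X := by exact_mod_cast hX
  have ht0 : (0 : ℝ) < t := by exact_mod_cast ht
  have hz : 1 ≤ (X : ℝ) ^ (1 / (t : ℝ)) := Real.one_le_rpow hX1 (by positivity)
  have key : ∀ l : List ℕ, (∀ q ∈ l, (X : ℝ) ^ (1 / (t : ℝ)) < q) → l ≠ [] → ((X : ℝ) ^ (1 / (t : ℝ))) ^ l.length < (l.prod : ℝ) := by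
    intro l
    induction l with
    | nil => intro _ h; exact absurd rfl h
    | cons a l ih =>
      intro h1 _
      rw [List.length_cons, pow_succ, List.prod_cons, Nat.cast_mul]
      have ha := h1 a (by simp)
      rcases l.eq_nil_or_concat with h2 | ⟨_, _, h2⟩
      · rw [h2]
        simp only [List.length_nil, pow_zero, one_mul, List.prod_nil, Nat.cast_one, mul_one]
        exact ha
      · have hne : l ≠ [] := by
          rw [h2]
          simp
        have h3 := ih (fun q hq => h1 q (by simp [hq])) hne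
        rw [mul_comm]
        exact mul_lt_mul'' ha h3 (by positivity) (by positivity)
  have h1 := key n.primeFactorsList (fun q hq => h q (Nat.prime_of_mem_primeFactorsList hq) (Nat.dvd_of_mem_primeFactorsList hq))
    (by
      intro h2
      rw [h2] at hcon
      simp at hcon)
  rw [Nat.prod_primeFactorsList (by omega)] at h1
  have h2 : (X : ℝ) ≤ ((X : ℝ) ^ (1 / (t : ℝ))) ^ n.primeFactorsList.length := by
    calc (X : ℝ) = ((X : ℝ) ^ (1 / (t : ℝ))) ^ t := by
          rw [← Real.rpow_natCast, ← Real.rpow_mul hX0.le, one_div, inv_mul_cancel₀ ht0.ne', Real.rpow_one]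
      _ ≤ _ := pow_le_pow_right₀ hz hcon.le
  have h3 : (n : ℝ) ≤ X := by exact_mod_cast hnX
  linarith

/-- **One thin set for all triples.** For every `E` there are `t`, `c, C > 0` and a set `Q` of primes with at most `C (log log x) ^ 2`
elements up to `x`, for all `x ≥ 16`, such that for all large `X`, ALL admissible triples `{0, d, d'}` with `1 ≤ d, d' ≤ log ^ E X` and
all windows `A < B ≤ X`, `B - A ≥ θ X`, with `z = X ^ (1/t)` and `N = (B - A) V d d' X` (where `V d d' X ≥ c / log ^ 3 X`):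

(1) `One z d d' A B` has at least `c N` elements, or there is `q ∈ Q`, `X ^ (1/9) < q ≤ X ^ (1/2)`, such that `Two q z d d' A B` has at
least `c N / q` elements;

(2) for every `L`, `k` there is `D` such that for every colouring of the integers with `k` colours there are `s ≤ t`, a colour `b` and an
`L`-term arithmetic progression with difference `g ≤ log ^ D X` in `One z d d' A B`, or with difference `q g`, `g ≤ log ^ D X`, in
`Two q z d d' A B` for some `q ∈ Q`, of elements `p` of the colour `b` for which `p - d'` has exactly `s` prime factors. -/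
theorem result : ∀ E : ℕ, ∃ (t : ℕ) (c C : ℝ) (Q : Set ℕ), 1 ≤ t ∧ 0 < c ∧ 0 < C ∧ (∀ q ∈ Q, q.Prime) ∧
    (∀ x : ℕ, 16 ≤ x → {q ∈ Q | q ≤ x}.Finite ∧ ({q ∈ Q | q ≤ x}.ncard : ℝ) ≤ C * Real.log (Real.log x) ^ 2) ∧
    ∀ θ : ℝ, 0 < θ → (∃ X₀ : ℕ, ∀ X : ℕ, X₀ ≤ X → ∀ d d' A B : ℕ, Admissible d d' → 1 ≤ d → 1 ≤ d' → (d : ℝ) ≤ Real.log X ^ E →
        (d' : ℝ) ≤ Real.log X ^ E → B ≤ X → θ * X ≤ (B : ℝ) - A → c / Real.log X ^ 3 ≤ V d d' X ∧
        (c * (((B : ℝ) - A) * V d d' X) ≤ (One ((X : ℝ) ^ (1 / (t : ℝ))) d d' A B).card ∨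
        ∃ q ∈ Q, (X : ℝ) ^ (1 / 9 : ℝ) < q ∧ q ^ 2 ≤ X ∧
          c * (((B : ℝ) - A) * V d d' X / q) ≤ (Two q ((X : ℝ) ^ (1 / (t : ℝ))) d d' A B).card)) ∧
      ∀ L k : ℕ, 1 ≤ k → ∃ D X₀ : ℕ, ∀ X : ℕ, X₀ ≤ X → ∀ d d' A B : ℕ, Admissible d d' → 1 ≤ d → 1 ≤ d' →
        (d : ℝ) ≤ Real.log X ^ E → (d' : ℝ) ≤ Real.log X ^ E → B ≤ X → θ * X ≤ (B : ℝ) - A → ∀ col : ℕ → Fin k,
        ∃ s ≤ t, ∃ b : Fin k, ∃ n g : ℕ, 1 ≤ g ∧ (g : ℝ) ≤ Real.log X ^ D ∧
          ((∀ i < L, n + i * g ∈ One ((X : ℝ) ^ (1 / (t : ℝ))) d d' A B ∧ col (n + i * g) = b ∧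
              (n + i * g - d').primeFactorsList.length = s) ∨
            ∃ q ∈ Q, (X : ℝ) ^ (1 / 9 : ℝ) < q ∧ q ^ 2 ≤ X ∧
              ∀ i < L, n + i * (q * g) ∈ Two q ((X : ℝ) ^ (1 / (t : ℝ))) d d' A B ∧ col (n + i * (q * g)) = b ∧
                (n + i * (q * g) - d').primeFactorsList.length = s) := by
  classical
  intro E
  obtain ⟨t, ht, c, hc, ρ, hρ, hdich⟩ := dich 2
  obtain ⟨cV, hcV, hV⟩ := VF_low 2
  obtain ⟨c', hc', C, hC, Q, hQ, hQc, H⟩ := thinListU (r := 2) (t := t) hc hρ hdich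
    (fun n => (Fd n.unpair.1 n.unpair.2, (n.unpair.1 : ℤ))) (2 * E + 1)
  have ht0 : (0 : ℝ) < 1 / (t : ℝ) := by
    have : (0 : ℝ) < t := by exact_mod_cast ht
    positivity
  have ev1 : ∀ᶠ X : ℕ in atTop, Real.log X ^ E ≤ (X : ℝ) ^ (1 / (t : ℝ)) := by
    have h1 := (isLittleO_log_rpow_rpow_atTop (E : ℝ) ht0).def (one_pos (α := ℝ))
    have h2 := (tendsto_natCast_atTop_atTop (R := ℝ)).eventually h1
    filter_upwards [h2, eventually_ge_atTop 1] with X hX h1
    have hX1 : (1 : ℝ) ≤ X := by exact_mod_cast h1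
    rw [Real.norm_of_nonneg (Real.rpow_nonneg (Real.log_nonneg hX1) _), Real.norm_of_nonneg (by positivity), one_mul,
      Real.rpow_natCast] at hX
    exact hX
  have ev2 : ∀ᶠ X : ℕ in atTop, (4 : ℝ) ≤ Real.log X :=
    (Real.tendsto_log_atTop.comp tendsto_natCast_atTop_atTop).eventually_ge_atTop _
  obtain ⟨X₁, hX₁⟩ := eventually_atTop.1 (ev1.and (ev2.and (eventually_ge_atTop 2)))
  -- the alternatives in terms of the library
  have base : ∀ θ : ℝ, 0 < θ → ∃ X₀ : ℕ, ∀ X : ℕ, X₀ ≤ X → ∀ d d' A B : ℕ, Admissible d d' → 1 ≤ d → 1 ≤ d' →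
      (d : ℝ) ≤ Real.log X ^ E → (d' : ℝ) ≤ Real.log X ^ E → B ≤ X → θ * X ≤ (B : ℝ) - A →
      (∀ p : ℕ, (X : ℝ) ^ (1 / (t : ℝ)) < (p : ℝ) → d < p ∧ d' < p) ∧ SysF 2 X (Fd d d') d ∧ 2 ≤ X ∧
      (c' * (((B : ℝ) - A) * V d d' X) ≤ ((PF t X A B (Fd d d') d).card : ℝ) ∨
        ∃ q ∈ Q, c' * (((B : ℝ) - A) * V d d' X / q) ≤ ((RF t X A B (Fd d d') d q).card : ℝ)) := by
    intro θ hθ
    obtain ⟨X₀, H⟩ := H θ hθ
    refine ⟨max X₀ X₁, ?_⟩
    intro X hX d d' A B hadm hd hd' hdE hdE' hBX hAB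
    obtain ⟨e1, e2, e3⟩ := hX₁ X ((le_max_right _ _).trans hX)
    have hX1r : (1 : ℝ) ≤ X := by exact_mod_cast (by omega : 1 ≤ X)
    have hXt : (X : ℝ) ^ (1 / (t : ℝ)) ≤ X := by
      calc (X : ℝ) ^ (1 / (t : ℝ)) ≤ (X : ℝ) ^ (1 : ℝ) := by
            apply Real.rpow_le_rpow_of_exponent_le hX1r
            rw [div_le_one (by exact_mod_cast ht)]
            exact_mod_cast ht
        _ = X := Real.rpow_one _
    have hdX : d ≤ X := by exact_mod_cast hdE.trans (e1.trans hXt)
    have hlt : ∀ p : ℕ, (X : ℝ) ^ (1 / (t : ℝ)) < (p : ℝ) → d < p ∧ d' < p := by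
      intro p hp
      have h1 : (d : ℝ) < p := lt_of_le_of_lt (hdE.trans e1) hp
      have h2 : (d' : ℝ) < p := lt_of_le_of_lt (hdE'.trans e1) hp
      exact ⟨by exact_mod_cast h1, by exact_mod_cast h2⟩
    have hs0 := sys0 hadm hd
    have habs : |(d : ℤ)| ≤ X := by
      rw [abs_of_nonneg (by positivity)]
      exact_mod_cast hdX
    obtain ⟨n, hn⟩ : ∃ n, n = Nat.pair d d' := ⟨_, rfl⟩
    have hn1 : n.unpair.1 = d := by rw [hn, Nat.unpair_pair]
    have hn2 : n.unpair.2 = d' := by rw [hn, Nat.unpair_pair]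
    have hnE : (n : ℝ) ≤ Real.log X ^ (2 * E + 1) := by
      have h1 : n < (max d d' + 1) ^ 2 := by
        rw [hn]
        exact Nat.pair_lt_max_add_one_sq d d'
      have h2 : ((max d d' : ℕ) : ℝ) ≤ Real.log X ^ E := by
        rcases max_cases d d' with ⟨h, _⟩ | ⟨h, _⟩ <;> rw [h] <;> assumption
      have h3 : (1 : ℝ) ≤ Real.log X ^ E := one_le_pow₀ (by linarith)
      have h4 : (n : ℝ) ≤ (((max d d' : ℕ) : ℝ) + 1) ^ 2 := by exact_mod_cast h1.le
      calc (n : ℝ) ≤ (((max d d' : ℕ) : ℝ) + 1) ^ 2 := h4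
        _ ≤ (Real.log X ^ E + Real.log X ^ E) ^ 2 := by
            apply pow_le_pow_left₀ (by positivity)
            linarith
        _ = 4 * Real.log X ^ (2 * E) := by
            rw [pow_mul']
            ring
        _ ≤ Real.log X * Real.log X ^ (2 * E) := mul_le_mul_of_nonneg_right e2 (by positivity)
        _ = _ := by ring
    refine ⟨hlt, hs0.sys habs, e3, ?_⟩
    have h0 := H X ((le_max_left _ _).trans hX) n hnE (by
      simp only [hn1, hn2]
      exact hs0) (by
      simp only [hn1]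
      exact habs) A B hBX hAB
    simp only [hn1, hn2, V_eq] at h0
    exact h0
  have hVpos : ∀ X : ℕ, 2 ≤ X → ∀ d d' : ℕ, Admissible d d' → cV / Real.log X ^ 3 ≤ V d d' X := by
    intro X hX d d' hadm
    rw [← V_eq]
    exact hV X hX (Fd d d') (fun q _ => by unfold Fd; exact card_le_two) (fun q hq => rho_lt hadm hq)
  have hone : ∀ X A B d d' : ℕ, (∀ p : ℕ, (X : ℝ) ^ (1 / (t : ℝ)) < (p : ℝ) → d < p ∧ d' < p) →
      PF t X A B (Fd d d') d ⊆ One ((X : ℝ) ^ (1 / (t : ℝ))) d d' A B := by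
    intro X A B d d' hlt p hp
    unfold PF at hp
    rw [mem_filter] at hp
    obtain ⟨g1, g2, g3, g4, g5, g6, g7⟩ := good hlt hp.1
    unfold One
    rw [mem_filter]
    refine ⟨g1, g2, ?_, g4, g6⟩
    have := hp.2
    rwa [g5] at this
  have htwo : ∀ X A B d d' q : ℕ, (∀ p : ℕ, (X : ℝ) ^ (1 / (t : ℝ)) < (p : ℝ) → d < p ∧ d' < p) →
      RF t X A B (Fd d d') d q ⊆ Two q ((X : ℝ) ^ (1 / (t : ℝ))) d d' A B := by
    intro X A B d d' q hlt p hp
    unfold RF at hp
    rw [mem_filter] at hp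
    obtain ⟨g1, g2, g3, g4, g5, g6, g7⟩ := good hlt hp.1
    obtain ⟨p', h1, h2, h3⟩ := hp.2
    rw [g5] at h3
    unfold Two
    rw [mem_filter]
    exact ⟨g1, g2, ⟨p', h1, h2, by omega⟩, g4, g6⟩
  have hsize : ∀ X A B d d' q : ℕ, B ≤ X → q.Prime → (∀ p : ℕ, (X : ℝ) ^ (1 / (t : ℝ)) < (p : ℝ) → d < p ∧ d' < p) →
      (RF t X A B (Fd d d') d q).Nonempty → (X : ℝ) ^ (1 / 9 : ℝ) < q ∧ q ^ 2 ≤ X := by
    intro X A B d d' q hBX hq hlt ⟨p, hp⟩
    unfold RF at hp
    rw [mem_filter] at hp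
    obtain ⟨g1, g2, g3, g4, g5, g6, g7⟩ := good hlt hp.1
    obtain ⟨p', h1, h2, h3⟩ := hp.2
    rw [g5] at h3
    rw [mem_Ioc] at g1
    refine ⟨g7 q hq (by rw [h3]; exact Dvd.intro _ rfl), ?_⟩
    calc q ^ 2 ≤ q * p' := by
          rw [pow_two]
          exact Nat.mul_le_mul_left _ h2
      _ = p - d := h3.symm
      _ ≤ X := by omega
  obtain ⟨c₁, hc₁⟩ : ∃ c₁, c₁ = min c' cV := ⟨_, rfl⟩
  have hc10 : 0 < c₁ := by rw [hc₁]; positivity
  have hc11 : c₁ ≤ c' := by rw [hc₁]; exact min_le_left _ _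
  have hc12 : c₁ ≤ cV := by rw [hc₁]; exact min_le_right _ _
  refine ⟨t, c₁, C, Q, ht, hc10, hC, hQ, ?_, ?_⟩
  · intro x hx
    obtain ⟨S, hS, hSc⟩ := hQc x hx
    have hsub : {q ∈ Q | q ≤ x} ⊆ (S : Set ℕ) := by
      rintro q ⟨h1, h2⟩
      exact hS q h1 h2
    refine ⟨(finite_toSet _).subset hsub, ?_⟩
    have h1 := Set.ncard_le_ncard hsub (finite_toSet _)
    rw [Set.ncard_coe_finset] at h1
    exact le_trans (by exact_mod_cast h1) hSc
  intro θ hθ
  obtain ⟨X₀, hbase⟩ := base θ hθ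
  constructor
  · refine ⟨X₀, ?_⟩
    intro X hX d d' A B hadm hd hd' hdE hdE' hBX hAB
    obtain ⟨hlt, hsys, hX2, h0⟩ := hbase X hX d d' A B hadm hd hd' hdE hdE' hBX hAB
    have hX0 : (0 : ℝ) < X := by exact_mod_cast (by omega : 0 < X)
    have hlX : 0 < Real.log X := Real.log_pos (by exact_mod_cast (by omega : 1 < X))
    have hAB0 : 0 < (B : ℝ) - A := lt_of_lt_of_le (by positivity) hAB
    have hVl := hVpos X hX2 d d' hadm
    have hVp : 0 < V d d' X := lt_of_lt_of_le (by positivity) hVl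
    refine ⟨(div_le_div_of_nonneg_right hc12 (by positivity)).trans hVl, ?_⟩
    rcases h0 with h | ⟨q, hq, h⟩
    · left
      exact (mul_le_mul_of_nonneg_right hc11 (by positivity)).trans (h.trans (by exact_mod_cast card_le_card (hone X A B d d' hlt)))
    · right
      have hq0 : (0 : ℝ) < q := by exact_mod_cast (hQ q hq).pos
      have hN0 : 0 < c' * (((B : ℝ) - A) * V d d' X / q) := by positivity
      have hne : (RF t X A B (Fd d d') d q).Nonempty := by
        rw [← card_pos]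
        exact_mod_cast lt_of_lt_of_le hN0 h
      obtain ⟨h1, h2⟩ := hsize X A B d d' q hBX (hQ q hq) hlt hne
      exact ⟨q, hq, h1, h2, (mul_le_mul_of_nonneg_right hc11 (by positivity)).trans
        (h.trans (by exact_mod_cast card_le_card (htwo X A B d d' q hlt)))⟩
  · intro L k hk
    obtain ⟨K, hK⟩ : ∃ K : Finset (ℕ × Fin k), K = (range (t + 1)) ×ˢ univ := ⟨_, rfl⟩
    have hKc : K.card = (t + 1) * k := by
      rw [hK, card_product, card_range, card_univ, Fintype.card_fin]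
    have hKne : K.Nonempty := by
      rw [← card_pos, hKc]
      positivity
    have hKr : (0 : ℝ) < K.card := by exact_mod_cast hKne.card_pos
    obtain ⟨D, X₂, H2⟩ := apClass L 2 t ht (1 / (K.card : ℝ) * c') θ (by positivity) hθ
    refine ⟨D, max X₀ X₂, ?_⟩
    intro X hX d d' A B hadm hd hd' hdE hdE' hBX hAB col
    obtain ⟨hlt, hsys, hX2, h0⟩ := hbase X ((le_max_left _ _).trans hX) d d' A B hadm hd hd' hdE hdE' hBX hAB
    have hX0 : (0 : ℝ) < X := by exact_mod_cast (by omega : 0 < X)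
    have hlX : 0 < Real.log X := Real.log_pos (by exact_mod_cast (by omega : 1 < X))
    have hAB0 : 0 < (B : ℝ) - A := lt_of_lt_of_le (by positivity) hAB
    have hVp : 0 < V d d' X := lt_of_lt_of_le (by positivity) (hVpos X hX2 d d' hadm)
    have hcls : ∀ p ∈ GoodF t X A B (Fd d d') d, ((p - d').primeFactorsList.length, col p) ∈ K := by
      intro p hp
      obtain ⟨g1, g2, g3, g4, g5, g6, g7⟩ := good hlt hp
      rw [mem_Ioc] at g1
      rw [hK, mem_product, mem_range]
      refine ⟨?_, mem_univ _⟩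
      have := few ht (by omega : 1 ≤ X) (n := p - d') (by omega) (by omega) g6
      simp only
      omega
    rcases h0 with h | ⟨q, hq, h⟩
    · obtain ⟨e, heK, he⟩ := pigeon (PF t X A B (Fd d d') d) K (fun p => ((p - d').primeFactorsList.length, col p))
        (fun p hp => hcls p (by unfold PF at hp; exact (mem_filter.1 hp).1)) hKne
      obtain ⟨n, g, hg1, hg2, hg3⟩ := H2 X ((le_max_right _ _).trans hX) (Fd d d') d hsys A B hBX hAB 1 (by omega) (Or.inl rfl)
        ((PF t X A B (Fd d d') d).filter (fun p => ((p - d').primeFactorsList.length, col p) = e))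
        ((filter_subset _ _).trans (filter_subset _ _)) ⟨0, fun p _ => Nat.mod_one p⟩ (by
          refine le_trans ?_ he
          rw [Nat.cast_one, div_one, mul_assoc, V_eq]
          exact mul_le_mul_of_nonneg_left h (by positivity))
      rw [hK, mem_product, mem_range] at heK
      refine ⟨e.1, by omega, e.2, n, g, hg1, hg2, Or.inl ?_⟩
      intro i hi
      have h1 := hg3 i hi
      rw [one_mul, mem_filter] at h1
      refine ⟨hone X A B d d' hlt h1.1, ?_, ?_⟩
      · rw [← h1.2]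
      · rw [← h1.2]
    · have hq0 : (0 : ℝ) < q := by exact_mod_cast (hQ q hq).pos
      have hN0 : 0 < c' * (((B : ℝ) - A) * V d d' X / q) := by positivity
      have hne : (RF t X A B (Fd d d') d q).Nonempty := by
        rw [← card_pos]
        exact_mod_cast lt_of_lt_of_le hN0 h
      obtain ⟨s1, s2⟩ := hsize X A B d d' q hBX (hQ q hq) hlt hne
      obtain ⟨e, heK, he⟩ := pigeon (RF t X A B (Fd d d') d q) K (fun p => ((p - d').primeFactorsList.length, col p))
        (fun p hp => hcls p (by unfold RF at hp; exact (mem_filter.1 hp).1)) hKne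
      obtain ⟨n, g, hg1, hg2, hg3⟩ := H2 X ((le_max_right _ _).trans hX) (Fd d d') d hsys A B hBX hAB q (by omega) (Or.inr ⟨hQ q hq, s1⟩)
        ((RF t X A B (Fd d d') d q).filter (fun p => ((p - d').primeFactorsList.length, col p) = e))
        ((filter_subset _ _).trans (filter_subset _ _)) ⟨d % q, fun p hp => by
          rw [mem_filter] at hp
          have h1 := htwo X A B d d' q hlt hp.1
          unfold Two at h1
          rw [mem_filter] at h1
          obtain ⟨_, _, ⟨p', _, _, h2⟩, _⟩ := h1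
          rw [h2, Nat.add_mul_mod_self_left]⟩ (by
          refine le_trans ?_ he
          rw [mul_assoc, V_eq]
          exact mul_le_mul_of_nonneg_left h (by positivity))
      rw [hK, mem_product, mem_range] at heK
      refine ⟨e.1, by omega, e.2, n, g, hg1, hg2, Or.inr ⟨q, hq, s1, s2, ?_⟩⟩
      intro i hi
      have h1 := hg3 i hi
      rw [mem_filter] at h1
      refine ⟨htwo X A B d d' q hlt h1.1, ?_, ?_⟩
      · rw [← h1.2]
      · rw [← h1.2]

end Pool.Agent.Results.MP_1039f5_nt.OneThinSetAllTriples
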