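import Mathlib
import Pool.Agent.Q118.HW.Forms
import Pool.Agent.Q118.HL.Part

/-!
# Random families of shifts which satisfy the prime tuples conjecture up to a bounded perturbation

Let `T` and `m` be fixed. There is a `C` such that for all large `x` and ALL integers `|v 1|, ..., |v T| ≤ x`:

* there is a random set `S` of indices which contains every index with a probability of EXACTLY `5 / 18`, and such that
  with probability `1` the family of the `v i`, `i ∈ S`, is good;
* if `(13 / 18) ^ k * T < 1` then the indices can be coloured with `k` colours such that for every colour the family of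
  the `v i` with this colour is good.

A family is good if there are pairwise disjoint sets `A i` of `m` integers each, with `|a - v i| ≤ C` for all
`a ∈ A i`, such that for at least `x / (log x) ^ C` integers `0 ≤ n ≤ C x` all the numbers `n + a` are primes.

Proof: the uniform coloured Maynard-Tao theorem of the starting files with the constant `18 / 5`, applied to families
with repetitions, shows that good families carry the proportion `5 / 18` of every weight (a compactness argument: there
are only finitely many families of subsets, hence finitely many critical weights); duality of linear programming.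
-/

set_option autoImplicit false

namespace Pool.Agent.Results.MP_1039f5_nt.RandomSubfamiliesFiveEighteenths

open Finset Filter

/-- The family `v i`, `i ∈ S`, is good: there are pairwise disjoint sets `A i` of `m` integers each, with
`|a - v i| ≤ C` for `a ∈ A i`, such that for at least `x / (log x) ^ C` integers `0 ≤ n ≤ C x` all the numbers `n + a`,
`a ∈ A i`, `i ∈ S`, are primes. -/
def Good (C m x : ℕ) {T : ℕ} (S : Finset (Fin T)) (v : Fin T → ℤ) : Prop :=
  ∃ A : Fin T → Finset ℤ, (∀ i ∈ S, (A i).card = m ∧ ∀ a ∈ A i, |a - v i| ≤ C) ∧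
    (∀ i ∈ S, ∀ j ∈ S, i ≠ j → Disjoint (A i) (A j)) ∧
    (x : ℝ) / Real.log x ^ C ≤
      ({n : ℕ | n ≤ C * x ∧ ∀ i ∈ S, ∀ a ∈ A i, ((n : ℤ) + a).toNat.Prime}.ncard : ℝ)

theorem good_of {C m x T : ℕ} {S : Finset (Fin T)} {v : Fin T → ℤ}
    (h : Pool.Agent.Q118.HW.GF m C x (Fin T) S (fun t => (1, v t))) : Good C m x S v := by
  obtain ⟨E, h1, h2, h3⟩ := h
  refine ⟨E, h1, fun t ht t' ht' hne => ?_, ?_⟩
  · rw [Finset.disjoint_left]
    intro a ha ha'
    exact h2 t ht t' ht' hne a ha a ha' rfl
  · simp only [one_mul] at h3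
    exact h3

open Classical in
theorem result :
    (∀ T m : ℕ, ∃ C : ℕ, ∀ᶠ x : ℕ in atTop, ∀ v : Fin T → ℤ, (∀ i, |v i| ≤ x) →
      ∃ q : Finset (Fin T) → ℝ, (∀ S, 0 ≤ q S) ∧ ∑ S, q S = 1 ∧ (∀ S, q S ≠ 0 → Good C m x S v) ∧
        ∀ i, ∑ S ∈ univ.filter (fun S => i ∈ S), q S = 5 / 18) ∧
    (∀ T m : ℕ, ∃ C : ℕ, ∀ᶠ x : ℕ in atTop, ∀ v : Fin T → ℤ, (∀ i, |v i| ≤ x) →
      ∀ k : ℕ, (13 / 18 : ℝ) ^ k * T < 1 →
        ∃ c : Fin T → Fin k, ∀ j : Fin k, Good C m x (univ.filter (fun i => c i = j)) v) := by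
  refine ⟨fun T m => ?_, fun T m => ?_⟩
  · obtain ⟨C, h⟩ := Pool.Agent.Q118.HW.carriesF m 1 le_rfl (Fin T)
    refine ⟨C, ?_⟩
    filter_upwards [h] with x hx v hv
    have hx1 := hx (fun t => (1, v t)) (fun t => ⟨le_rfl, by norm_num, hv t⟩)
    obtain ⟨q, hq1, hq2, hq3, hq4⟩ := Pool.Agent.Q118.HL.dual _ hx1.1 (5 / 18) (by norm_num) hx1.2
    exact ⟨q, hq1, hq3, fun S hS => good_of (hq2 S hS), fun i => by rw [← hq4 i]⟩
  · obtain ⟨C, h⟩ := Pool.Agent.Q118.HW.carriesF m 1 le_rfl (Fin T)
    refine ⟨C, ?_⟩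
    filter_upwards [h] with x hx v hv k hk
    have hx1 := hx (fun t => (1, v t)) (fun t => ⟨le_rfl, by norm_num, hv t⟩)
    obtain ⟨c, hc⟩ := Pool.Agent.Q118.HL.colouring (by norm_num : (5 / 18 : ℝ) ≤ 1) _ hx1 k (by
      rw [Fintype.card_fin]
      have e : (1 : ℝ) - 5 / 18 = 13 / 18 := by norm_num
      rw [e]
      exact hk)
    refine ⟨c, fun j => good_of ?_⟩
    have h1 := hc j
    have h2 : (univ.filter (fun t => c t = j) : Finset (Fin T)) = univ.filter (fun i => c i = j) := by
      apply filter_congr_decidable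
    rw [← h2]
    exact h1

end Pool.Agent.Results.MP_1039f5_nt.RandomSubfamiliesFiveEighteenths
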