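import Pool.Agent.Q236.CP.Poly

set_option autoImplicit false

/-!
# Every admissible pattern of consecutive almost primes, uniformly up to the scale of the mean gap

Call an integer `X`-rough if it has no prime factor `≤ X ^ (1 / r)`; rough numbers up to `X` have fewer than `r + 1`
prime factors. Let `V` be the product of `1 - 1 / p` over the primes `p ≤ X ^ (1 / r)`, the density of the rough
numbers, and let `𝔖(H)` be the singular series of a pattern `H`, cut at `X ^ (1 / r)`. The conjecture of Hardy and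
Littlewood predicts for the primes that EACH admissible pattern `0 ∈ H` with `k` elements and largest element
`D` is realised by consecutive primes with the frequency `𝔖(H) V ^ k exp (-D V)`, also if `D` is of the order of
magnitude of the mean gap `1 / V`. For the rough numbers this is proved here, up to `ε`, in all intervals
`(Z, Z + Y]`, `Y ≥ X ^ θ`, simultaneously for ALL admissible patterns with `k` elements and `D V ≤ C`, `r ≥ r₀`; and
the number of the further rough numbers between `n` and `n + D` has the Poisson law of mean `D V`.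

Method. The binomial moments of this number are sums over the sets `H ∪ J`, `H` fixed, of counting functions of
sifted sets (fundamental lemma). The singular series of `H ∪ J` is `𝔖(H)` on average over `J`: at the small primes
exactly, by counting in a period; at the large primes by bounds for the collisions inside `J` and between `H`
and `J` (`Pool/Agent/Q236/CP`).
-/

namespace Pool.Agent.Results.MP_1039f5_nt.UniformConsecutive

open Finset Filter

/-- the number of the residue classes modulo `p` which contain elements of `H` -/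
def ν (H : Finset ℕ) (p : ℕ) : ℕ := (H.image (fun h => h % p)).card

/-- `H` misses a residue class modulo every prime. -/
def Admissible (H : Finset ℕ) : Prop := ∀ p : ℕ, p.Prime → ν H p < p

/-- The product of `1 - 1 / p` over the primes `p ≤ X ^ (1 / r)`. -/
noncomputable def V (X r : ℕ) : ℝ :=
  ∏ p ∈ (Finset.Icc 1 ⌊(X : ℝ) ^ (1 / (r : ℝ))⌋₊).filter Nat.Prime, (1 - 1 / (p : ℝ))

/-- The singular series of `H`, cut at `X ^ (1 / r)`. -/
noncomputable def S (X r : ℕ) (H : Finset ℕ) : ℝ :=
  ∏ p ∈ (Finset.Icc 1 ⌊(X : ℝ) ^ (1 / (r : ℝ))⌋₊).filter Nat.Prime,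
    (1 - (ν H p : ℝ) / p) / (1 - 1 / (p : ℝ)) ^ H.card

/-- No prime `p ≤ X ^ (1 / r)` divides `n`. -/
def Rough (X r n : ℕ) : Prop := ∀ p : ℕ, p.Prime → (p : ℝ) ≤ (X : ℝ) ^ (1 / (r : ℝ)) → ¬ p ∣ n

open Classical in
/-- The number of the rough `n + b`, `0 ≤ b ≤ max H`, `b` not in `H`. -/
noncomputable def further (X r : ℕ) (H : Finset ℕ) (n : ℕ) : ℕ :=
  ((Finset.range (H.sup id + 1) \ H).filter (fun b => Rough X r (n + b))).card

open Classical in
/-- The number of the `n` in `(Z, Z + Y]` such that all `n + h`, `h` in `H`, are rough, and such that the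
number of the further rough numbers between `n` and `n + max H` belongs to `A`. -/
noncomputable def count (X r : ℕ) (H A : Finset ℕ) (Z Y : ℕ) : ℕ :=
  ((Finset.Ioc Z (Z + Y)).filter (fun n => (∀ h ∈ H, Rough X r (n + h)) ∧ further X r H n ∈ A)).card

open Pool.Agent.W123.RP Pool.Agent.H373R2.T7 Pool.Agent.W123.RU Pool.Agent.W123.RU.Poly
open Pool.Agent.TH464.PW Pool.Agent.TH464.PO Pool.Agent.Q236.CP

/-- the system consisting of the polynomial `X` -/
noncomputable def F : Fin 1 → Polynomial ℤ := fun _ => Polynomial.X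

lemma Q_iff (p m : ℕ) : Q F p m ↔ p ∣ m := by
  unfold Q F
  simp only [Polynomial.eval_X, exists_const]
  exact Int.natCast_dvd_natCast

lemma sysF : Sys F where
  irr := fun _ => Polynomial.irreducible_X
  deg := fun _ => by unfold F; rw [Polynomial.natDegree_X]; norm_num
  lead := fun _ => by unfold F; rw [Polynomial.leadingCoeff_X]; norm_num
  inj := fun i j _ => Subsingleton.elim i j
  adm := fun p hp => ⟨1, fun _ => by
    unfold F
    rw [Polynomial.eval_X]
    intro h
    exact hp.one_lt.ne' (Nat.dvd_one.1 (Int.natCast_dvd_natCast.1 h))⟩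

lemma noTrF : NoTr F := noTr_single Polynomial.X (by rw [Polynomial.natDegree_X]; norm_num)

lemma nu_F (p : ℕ) (hp : p.Prime) : nuB (Q F) p = 1 := by
  classical
  unfold nuB
  have : (range p).filter (fun r => Q F p r) = {0} := by
    ext r
    rw [mem_filter, mem_range, mem_singleton, Q_iff]
    constructor
    · rintro ⟨h1, h2⟩
      exact Nat.eq_zero_of_dvd_of_lt h2 h1
    · rintro rfl
      exact ⟨hp.pos, dvd_zero p⟩
  rw [this, card_singleton]

lemma nu_H (H : Finset ℕ) (p : ℕ) (hp : p.Prime) : nuB (QH (Q F) H) p = ν H p := by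
  classical
  unfold nuB ν
  have h1 : (range p).filter (fun r => QH (Q F) H p r) =
      (H.image (fun h => h % p)).image (fun a => (p - a) % p) := by
    ext r
    rw [mem_filter, mem_range]
    unfold QH
    constructor
    · rintro ⟨hr, h, hh, hd⟩
      rw [Q_iff] at hd
      rw [mem_image]
      refine ⟨h % p, mem_image_of_mem _ hh, ?_⟩
      have h2 : h % p < p := Nat.mod_lt _ hp.pos
      have h3 : p ∣ r + h % p := by
        rw [Nat.dvd_iff_mod_eq_zero] at hd ⊢
        rw [Nat.add_mod, Nat.mod_mod, ← Nat.add_mod]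
        exact hd
      obtain ⟨e, he⟩ := h3
      rcases Nat.eq_zero_or_pos (h % p) with h4 | h4
      · rw [h4, Nat.sub_zero, Nat.mod_self]
        rw [h4, add_zero] at he
        have : p ∣ r := ⟨e, he⟩
        exact (Nat.eq_zero_of_dvd_of_lt this hr).symm
      · have h5 : p * e < p * 2 := by omega
        have h6 : e < 2 := lt_of_mul_lt_mul_left h5 (Nat.zero_le _)
        have h7 : e ≠ 0 := by
          rintro rfl
          omega
        have h8 : e = 1 := by omega
        rw [h8] at he
        have h9 : p - h % p = r := by omega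
        rw [h9, Nat.mod_eq_of_lt hr]
    · intro hr
      rw [mem_image] at hr
      obtain ⟨a, ha, rfl⟩ := hr
      rw [mem_image] at ha
      obtain ⟨h, hh, rfl⟩ := ha
      refine ⟨Nat.mod_lt _ hp.pos, h, hh, ?_⟩
      rw [Q_iff, Nat.dvd_iff_mod_eq_zero]
      have h2 : h % p < p := Nat.mod_lt _ hp.pos
      have e : ((p - h % p) % p + h) % p = ((p - h % p) + h % p) % p := by
        rw [Nat.add_mod, Nat.mod_mod, ← Nat.add_mod, Nat.add_mod_mod]
      rw [e, show p - h % p + h % p = p by omega, Nat.mod_self]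
  have h2 := Finset.card_image_of_injOn (s := H.image (fun h => h % p)) (f := fun a => (p - a) % p) (by
    intro a ha b hb hab
    rw [Finset.mem_coe, mem_image] at ha hb
    obtain ⟨x, _, rfl⟩ := ha
    obtain ⟨y, _, rfl⟩ := hb
    have hx : x % p < p := Nat.mod_lt _ hp.pos
    have hy : y % p < p := Nat.mod_lt _ hp.pos
    simp only at hab
    rcases Nat.eq_zero_or_pos (x % p) with h4 | h4 <;> rcases Nat.eq_zero_or_pos (y % p) with h5 | h5
    · omega
    · rw [h4, Nat.sub_zero, Nat.mod_self, Nat.mod_eq_of_lt (show p - y % p < p by omega)] at hab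
      omega
    · rw [h5, Nat.sub_zero, Nat.mod_self, Nat.mod_eq_of_lt (show p - x % p < p by omega)] at hab
      omega
    · rw [Nat.mod_eq_of_lt (show p - x % p < p by omega), Nat.mod_eq_of_lt (show p - y % p < p by omega)] at hab
      omega)
  rw [← h2, ← h1]

lemma pz_eq (y : ℕ) : pz y = (Finset.Icc 1 y).filter Nat.Prime := by
  ext p
  rw [mem_pz, mem_filter, mem_Icc]
  exact ⟨fun h => ⟨⟨h.2.one_lt.le, h.1⟩, h.2⟩, fun h => ⟨h.1.2, h.2⟩⟩

lemma V_eq (X r : ℕ) : Vq (Q F) ⌊(X : ℝ) ^ (1 / (r : ℝ))⌋₊ = V X r := by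
  unfold Vq V
  rw [pz_eq]
  apply Finset.prod_congr rfl
  intro p hp
  rw [nu_F p (mem_filter.1 hp).2, Nat.cast_one]

lemma VH_eq (X r : ℕ) (H : Finset ℕ) :
    Vq (QH (Q F) H) ⌊(X : ℝ) ^ (1 / (r : ℝ))⌋₊ = S X r H * V X r ^ H.card := by
  unfold Vq S V
  rw [pz_eq, ← Finset.prod_pow, ← Finset.prod_mul_distrib]
  apply Finset.prod_congr rfl
  intro p hp
  have hpp := (mem_filter.1 hp).2
  rw [nu_H H p hpp]
  have h2 : (2 : ℝ) ≤ p := by exact_mod_cast hpp.two_le
  have h1 : (0 : ℝ) < 1 - 1 / (p : ℝ) := by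
    rw [sub_pos, div_lt_one (by linarith)]
    linarith
  rw [div_mul_cancel₀]
  positivity

lemma rough_iff (X r n : ℕ) : Sf (Q F) ⌊(X : ℝ) ^ (1 / (r : ℝ))⌋₊ n ↔ Rough X r n := by
  have h0 : (0 : ℝ) ≤ (X : ℝ) ^ (1 / (r : ℝ)) := by positivity
  constructor
  · intro h q hq hqn hd
    exact h q (mem_pz.2 ⟨Nat.le_floor hqn, hq⟩) ((Q_iff q n).2 hd)
  · intro h q hq hi
    rw [mem_pz] at hq
    exact h q hq.2 ((Nat.le_floor_iff h0).1 hq.1) ((Q_iff q n).1 hi)

/-- **Every admissible pattern of consecutive almost primes, uniformly.** -/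
theorem result (k : ℕ) (C θ ε : ℝ) (hC : 0 < C) (hθ : 0 < θ) (hε : 0 < ε) :
    ∃ r₀ : ℕ, ∀ r : ℕ, r₀ ≤ r → ∀ᶠ X : ℕ in atTop, ∀ Z Y : ℕ, (X : ℝ) ^ θ ≤ Y →
      ∀ H : Finset ℕ, H.card = k → 0 ∈ H → Admissible H → (H.sup id : ℕ) * V X r ≤ C →
      ∀ A : Finset ℕ,
        |(count X r H A Z Y : ℝ) - Y * (S X r H * V X r ^ k) *
            ∑ j ∈ A, Real.exp (-((H.sup id : ℕ) * V X r)) * ((H.sup id : ℕ) * V X r) ^ j / j.factorial| ≤
          ε * (Y * (S X r H * V X r ^ k)) := by
  classical
  obtain ⟨r₀, hr₀, h⟩ := cp_poly F sysF noTrF θ hθ k C ε hC.le hε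
  refine ⟨r₀, fun r hr => ?_⟩
  filter_upwards [h r hr] with X hX
  intro Z Y hY H hk h0 hadm hD A
  have h1 := (hX Z Y hY H (H.sup id) hk.le (fun a ha => Finset.le_sup (f := id) ha)
    (fun p hp => by rw [nu_H H p hp]; exact hadm p hp) (by rw [V_eq]; exact hD)).2 A
  rw [V_eq, VH_eq, hk] at h1
  have h2 : count X r H A Z Y = ((OmZ (Q F) ⌊(X : ℝ) ^ (1 / (r : ℝ))⌋₊ H Z Y).filter
      (fun n => NB (Q F) ⌊(X : ℝ) ^ (1 / (r : ℝ))⌋₊ (Icc 1 (H.sup id) \ H) n ∈ A)).card := by
    have hset : Finset.range (H.sup id + 1) \ H = Icc 1 (H.sup id) \ H := by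
      ext b
      rw [Finset.mem_sdiff, Finset.mem_sdiff, mem_range, mem_Icc]
      constructor
      · rintro ⟨a1, a2⟩
        refine ⟨⟨?_, by omega⟩, a2⟩
        rcases Nat.eq_zero_or_pos b with h3 | h3
        · rw [h3] at a2
          exact absurd h0 a2
        · exact h3
      · rintro ⟨a1, a2⟩
        exact ⟨by omega, a2⟩
    have hNB : ∀ n, NB (Q F) ⌊(X : ℝ) ^ (1 / (r : ℝ))⌋₊ (Icc 1 (H.sup id) \ H) n = further X r H n := by
      intro n
      unfold NB further
      rw [hset]
      congr 1
      apply Finset.filter_congr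
      intro b _
      exact rough_iff X r (n + b)
    unfold count OmZ
    rw [Finset.filter_filter]
    congr 1
    apply Finset.filter_congr
    intro n _
    rw [hNB]
    apply and_congr_left
    intro _
    apply forall_congr'
    intro a
    apply imp_congr_right
    intro _
    exact (rough_iff X r (n + a)).symm
  rw [h2]
  exact h1

end Pool.Agent.Results.MP_1039f5_nt.UniformConsecutive
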